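import Pool.Agent.Helper21.MT9.Stmts
import Mathlib.Analysis.SpecialFunctions.Exponential
import Mathlib.Analysis.Matrix.Normed
import Mathlib.NumberTheory.Padics.PadicNumbers
import Mathlib.Topology.Algebra.Module.FiniteDimension

/-!
# LGP: logarithms of matrices near one
-/

set_option autoImplicit false

namespace MT

namespace LGP9

open NormedSpace Filter Topology

section der

variable {K : Type} [NontriviallyNormedField K] {n : ℕ}

/-- the derivative of a polynomial along a curve through the identity matrix -/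
theorem der_ev (γ : K → Matrix (Fin n) (Fin n) K) (z : Matrix (Fin n) (Fin n) K)
    (h0 : γ 0 = 1) (hd : ∀ i j, HasDerivAt (fun t => γ t i j) (z i j) 0)
    (f : MvPolynomial (Fin n × Fin n) K) :
    HasDerivAt (fun t => ev (γ t) f)
      (∑ i, ∑ j, z i j * ev (1 : Matrix (Fin n) (Fin n) K) (MvPolynomial.pderiv (i, j) f)) 0 := by
  induction f using MvPolynomial.induction_on with
  | C a =>
    have h1 : (fun t => ev (γ t) (MvPolynomial.C a)) = fun _ => a := by
      funext t; simp [ev]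
    rw [h1]
    have h2 : (∑ i : Fin n, ∑ j : Fin n, z i j * ev (1 : Matrix (Fin n) (Fin n) K)
        (MvPolynomial.pderiv (i, j) (MvPolynomial.C a))) = 0 := by
      simp [ev]
    rw [h2]
    exact hasDerivAt_const _ _
  | add p q hp hq =>
    have h1 : (fun t => ev (γ t) (p + q)) = fun t => ev (γ t) p + ev (γ t) q := by
      funext t; simp [ev]
    rw [h1]
    have h2 : (∑ i : Fin n, ∑ j : Fin n, z i j * ev (1 : Matrix (Fin n) (Fin n) K)
        (MvPolynomial.pderiv (i, j) (p + q))) =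
        (∑ i : Fin n, ∑ j : Fin n, z i j * ev (1 : Matrix (Fin n) (Fin n) K)
          (MvPolynomial.pderiv (i, j) p)) +
        (∑ i : Fin n, ∑ j : Fin n, z i j * ev (1 : Matrix (Fin n) (Fin n) K)
          (MvPolynomial.pderiv (i, j) q)) := by
      rw [← Finset.sum_add_distrib]
      refine Finset.sum_congr rfl fun i _ => ?_
      rw [← Finset.sum_add_distrib]
      refine Finset.sum_congr rfl fun j _ => ?_
      simp [ev, mul_add]
    rw [h2]
    exact hp.add hq
  | mul_X p ij hp =>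
    have h1 : (fun t => ev (γ t) (p * MvPolynomial.X ij)) =
        fun t => ev (γ t) p * γ t ij.1 ij.2 := by
      funext t; simp [ev]
    rw [h1]
    have h2 : (∑ i : Fin n, ∑ j : Fin n, z i j * ev (1 : Matrix (Fin n) (Fin n) K)
        (MvPolynomial.pderiv (i, j) (p * MvPolynomial.X ij))) =
        (∑ i : Fin n, ∑ j : Fin n, z i j * ev (1 : Matrix (Fin n) (Fin n) K)
          (MvPolynomial.pderiv (i, j) p)) * γ 0 ij.1 ij.2 +
        ev (γ 0) p * z ij.1 ij.2 := by
      rw [h0]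
      have h3 : ∀ i j : Fin n, z i j * ev (1 : Matrix (Fin n) (Fin n) K)
          (MvPolynomial.pderiv (i, j) (p * MvPolynomial.X ij)) =
          z i j * ev (1 : Matrix (Fin n) (Fin n) K) (MvPolynomial.pderiv (i, j) p) *
            (1 : Matrix (Fin n) (Fin n) K) ij.1 ij.2 +
          (if i = ij.1 then if j = ij.2 then
            ev (1 : Matrix (Fin n) (Fin n) K) p * z i j else 0 else 0) := by
        intro i j
        have h4 : MvPolynomial.pderiv (i, j) (p * MvPolynomial.X ij) =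
            MvPolynomial.pderiv (i, j) p * MvPolynomial.X ij +
              p * MvPolynomial.C (if i = ij.1 then if j = ij.2 then 1 else 0 else 0) := by
          rw [Derivation.leibniz, MvPolynomial.pderiv_X, smul_eq_mul, smul_eq_mul]
          by_cases hi : i = ij.1
          · by_cases hj : j = ij.2
            · have : (i, j) = ij := by rw [hi, hj]
              simp [this, hi, hj]
              ring
            · have : ij ≠ (i, j) := fun h => hj (by rw [h])
              simp [Pi.single_apply, this, hj]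
              ring
          · have : ij ≠ (i, j) := fun h => hi (by rw [h])
            simp [Pi.single_apply, this, hi]
            ring
        rw [h4]
        by_cases hi : i = ij.1
        · by_cases hj : j = ij.2
          · simp [ev, hi, hj]; ring
          · simp [ev, hi, hj]; ring
        · simp [ev, hi]; ring
      simp_rw [h3, Finset.sum_add_distrib]
      congr 1
      · simp_rw [Finset.sum_mul]
      · simp
    rw [h2]
    exact hp.mul (hd ij.1 ij.2)

end der

section ma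

variable (l : ℕ) [Fact l.Prime]

theorem norm_fac (k : ℕ) : ‖((k.factorial : ℚ_[l]))⁻¹‖ ≤ (l : ℝ) ^ k := by
  have hl : 1 < (l : ℝ) := by exact_mod_cast (Fact.out : l.Prime).one_lt
  have h0 : ((k.factorial : ℕ) : ℚ_[l]) ≠ 0 := by exact_mod_cast k.factorial_ne_zero
  rw [norm_inv, Padic.norm_eq_zpow_neg_valuation h0, Padic.valuation_natCast, zpow_neg, inv_inv,
    zpow_natCast]
  refine pow_le_pow_right₀ hl.le ?_
  rcases Nat.eq_zero_or_pos k with rfl | hk
  · simp
  · exact (padicValNat_factorial_lt_of_ne_zero l hk.ne').le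

variable (A : Type) [NormedRing A] [NormedAlgebra ℚ_[l] A] [FiniteDimensional ℚ_[l] A]

theorem rad_pos : 0 < (expSeries ℚ_[l] A).radius := by
  have hl : 1 < (l : ℝ) := by exact_mod_cast (Fact.out : l.Prime).one_lt
  obtain ⟨r, hr⟩ : ∃ r : NNReal, (r : ℝ) = (l : ℝ)⁻¹ :=
    ⟨Real.toNNReal (l : ℝ)⁻¹, Real.coe_toNNReal _ (by positivity)⟩
  have hr0 : 0 < r := by
    rw [← NNReal.coe_pos, hr]
    positivity
  refine lt_of_lt_of_le (ENNReal.coe_pos.mpr hr0)
    (FormalMultilinearSeries.le_radius_of_bound _ (max 1 ‖(1 : A)‖) fun k => ?_)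
  have h1 : ‖expSeries ℚ_[l] A k‖ ≤ (l : ℝ) ^ k * max 1 ‖(1 : A)‖ := by
    rw [expSeries_eq_ofScalars, FormalMultilinearSeries.ofScalars_norm_eq_mul]
    exact mul_le_mul (norm_fac l k) ContinuousMultilinearMap.norm_mkPiAlgebraFin_le
      (by positivity) (by positivity)
  have h2 : (r : ℝ) ^ k = ((l : ℝ) ^ k)⁻¹ := by
    rw [hr]; simp
  rw [h2]
  have h3 : (0 : ℝ) < (l : ℝ) ^ k := by positivity
  calc _ ≤ ((l : ℝ) ^ k * max 1 ‖(1 : A)‖) * ((l : ℝ) ^ k)⁻¹ :=
        mul_le_mul_of_nonneg_right h1 (by positivity)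
    _ = _ := by field_simp

theorem exp_img : ∀ᶠ g in 𝓝 (1 : A),
    ∃ z ∈ Metric.eball (0 : A) (expSeries ℚ_[l] A).radius, exp z = g := by
  have : CompleteSpace A := FiniteDimensional.complete ℚ_[l] _
  have h := hasStrictFDerivAt_exp_zero_of_radius_pos (rad_pos l A)
  have h1 := HasStrictFDerivAt.map_nhds_eq_of_surj h (by
    rw [LinearMap.range_eq_top]
    intro x
    exact ⟨x, rfl⟩)
  rw [exp_zero] at h1
  have h2 : Metric.eball (0 : A) (expSeries ℚ_[l] A).radius ∈ 𝓝 (0 : A) :=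
    Metric.eball_mem_nhds _ (rad_pos l A)
  have h3 := image_mem_map (m := (exp : A → A)) h2
  rw [h1] at h3
  filter_upwards [h3] with g hg
  exact hg

variable {A}

theorem exp_adj (z : A) : exp z ∈ Algebra.adjoin ℚ_[l] {z} := by
  have hc : IsClosed ((Algebra.adjoin ℚ_[l] {z} : Subalgebra ℚ_[l] A) : Set A) :=
    Submodule.closed_of_finiteDimensional (Subalgebra.toSubmodule (Algebra.adjoin ℚ_[l] {z}))
  let _ : Algebra ℚ A := RestrictScalars.algebra ℚ ℚ_[l] A
  have : IsScalarTower ℚ ℚ_[l] A := RestrictScalars.isScalarTower ℚ ℚ_[l] A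
  exact exp_mem (R := ℚ_[l]) (s := Algebra.adjoin ℚ_[l] {z}) hc
    (Algebra.subset_adjoin (Set.mem_singleton z))

theorem exp_mul {z : A} (hz : z ∈ Metric.eball (0 : A) (expSeries ℚ_[l] A).radius) (m : ℕ) :
    exp ((m : ℚ_[l]) • z) = exp z ^ m := by
  have : CompleteSpace A := FiniteDimensional.complete ℚ_[l] _
  have hb : ∀ m : ℕ, (m : ℚ_[l]) • z ∈ Metric.eball (0 : A) (expSeries ℚ_[l] A).radius := by
    intro m
    rw [Metric.mem_eball, edist_zero_right] at hz ⊢
    refine lt_of_le_of_lt ?_ hz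
    rw [enorm_le_iff_norm_le, norm_smul]
    exact mul_le_of_le_one_left (norm_nonneg _) (by exact_mod_cast Padic.norm_int_le_one (m : ℤ))
  induction m with
  | zero => rw [Nat.cast_zero, zero_smul, exp_zero, pow_zero]
  | succ m ih =>
    have h1 : ((m + 1 : ℕ) : ℚ_[l]) • z = (m : ℚ_[l]) • z + z := by
      rw [Nat.cast_succ, add_smul, one_smul]
    rw [h1, exp_add_of_commute_of_mem_ball ((Commute.refl z).smul_left _) (hb m) hz, ih, pow_succ]

theorem exp_der (z : A) (L : A →ₗ[ℚ_[l]] ℚ_[l]) :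
    HasDerivAt (fun t : ℚ_[l] => L (exp (t • z))) (L z) 0 := by
  have : CompleteSpace A := FiniteDimensional.complete ℚ_[l] _
  have h := hasFDerivAt_exp_zero_of_radius_pos (rad_pos l A)
  have h1 : HasDerivAt (fun t : ℚ_[l] => t • z) z 0 := by
    have := (hasDerivAt_id (0 : ℚ_[l])).smul_const z
    simpa using this
  have h2 : HasDerivAt (fun t : ℚ_[l] => (exp (t • z) : A)) z 0 := by
    have h3 : HasFDerivAt (exp : A → A) (1 : A →L[ℚ_[l]] A)
        ((fun t : ℚ_[l] => t • z) 0) := by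
      simpa using h
    have h5 := h3.comp_hasDerivAt (0 : ℚ_[l]) h1
    rw [ContinuousLinearMap.one_apply] at h5
    exact h5
  exact (LinearMap.toContinuousLinearMap L).hasFDerivAt.comp_hasDerivAt (0 : ℚ_[l]) h2

variable (A)

theorem abs_main : ∃ W : Set A, IsOpen W ∧ 1 ∈ W ∧ ∀ g ∈ W, ∃ z : A,
    g ∈ Algebra.adjoin ℚ_[l] {z} ∧ ∃ γ : ℚ_[l] → A, γ 0 = 1 ∧
      (∀ L : A →ₗ[ℚ_[l]] ℚ_[l], HasDerivAt (fun t => L (γ t)) (L z) 0) ∧
      ∀ m : ℕ, γ (m : ℚ_[l]) = g ^ m := by
  obtain ⟨W, hW, hWo, hW1⟩ := eventually_nhds_iff.mp (exp_img l A)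
  refine ⟨W, hWo, hW1, fun g hg => ?_⟩
  obtain ⟨z, hz, hzg⟩ := hW _ hg
  refine ⟨z, ?_, fun t => exp (t • z), ?_, fun L => exp_der l z L, fun m => ?_⟩
  · rw [← hzg]; exact exp_adj l z
  · simp
  · simp only
    rw [exp_mul l hz, hzg]

end ma

section fin

variable (l : ℕ) [Fact l.Prime] (n : ℕ)

theorem mat_main : ∃ W : Set (Matrix (Fin n) (Fin n) ℚ_[l]), IsOpen W ∧ 1 ∈ W ∧
    ∀ g ∈ W, ∃ z : Matrix (Fin n) (Fin n) ℚ_[l],
    g ∈ Algebra.adjoin ℚ_[l] {z} ∧ ∃ γ : ℚ_[l] → Matrix (Fin n) (Fin n) ℚ_[l], γ 0 = 1 ∧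
      (∀ L : Matrix (Fin n) (Fin n) ℚ_[l] →ₗ[ℚ_[l]] ℚ_[l],
        HasDerivAt (fun t => L (γ t)) (L z) 0) ∧
      ∀ m : ℕ, γ (m : ℚ_[l]) = g ^ m := by
  let h1 : NormedRing (Matrix (Fin n) (Fin n) ℚ_[l]) := Matrix.linftyOpNormedRing
  let h2 : NormedAlgebra ℚ_[l] (Matrix (Fin n) (Fin n) ℚ_[l]) := Matrix.linftyOpNormedAlgebra
  exact abs_main l (Matrix (Fin n) (Fin n) ℚ_[l])

theorem main : ∃ V : Set (Matrix.GeneralLinearGroup (Fin n) ℚ_[l]),
    IsOpen V ∧ 1 ∈ V ∧ ∀ g ∈ V, ∃ z : Matrix (Fin n) (Fin n) ℚ_[l],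
      (g : Matrix (Fin n) (Fin n) ℚ_[l]) ∈ Algebra.adjoin ℚ_[l] {z} ∧
      ∀ X : Subgroup (Matrix.GeneralLinearGroup (Fin n) ℚ_[l]), g ∈ X → z ∈ LieZ X := by
  obtain ⟨W, hWo, hW1, hW⟩ := mat_main l n
  refine ⟨(fun g : Matrix.GeneralLinearGroup (Fin n) ℚ_[l] =>
    (g : Matrix (Fin n) (Fin n) ℚ_[l])) ⁻¹' W, hWo.preimage Units.continuous_val, hW1, ?_⟩
  intro g hg
  obtain ⟨z, hz, γ, hγ0, hγd, hγm⟩ := hW _ hg
  refine ⟨z, hz, ?_⟩
  intro X hX f hf
  have hd := der_ev γ z hγ0 (fun i j => hγd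
    { toFun := fun A => A i j
      map_add' := fun A B => rfl
      map_smul' := fun c A => rfl }) f
  rw [hasDerivAt_iff_tendsto_slope] at hd
  have hl0 : (l : ℚ_[l]) ≠ 0 := by exact_mod_cast (Fact.out : l.Prime).ne_zero
  have ht : Tendsto (fun k : ℕ => (l : ℚ_[l]) ^ k) atTop (𝓝[≠] 0) := by
    rw [tendsto_nhdsWithin_iff]
    refine ⟨tendsto_pow_atTop_nhds_zero_of_norm_lt_one ?_, ?_⟩
    · rw [Padic.norm_p]
      exact inv_lt_one_of_one_lt₀ (by exact_mod_cast (Fact.out : l.Prime).one_lt)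
    · exact Eventually.of_forall fun k => pow_ne_zero _ hl0
  have h1 := hd.comp ht
  have h2 : ∀ k : ℕ, ev (γ ((l : ℚ_[l]) ^ k)) f = 0 := by
    intro k
    have h3 : (l : ℚ_[l]) ^ k = ((l ^ k : ℕ) : ℚ_[l]) := by push_cast; rfl
    rw [h3, hγm, ← Units.val_pow_eq_pow_val]
    exact hf _ (X.pow_mem hX _)
  have h4 : ev (γ 0) f = 0 := by
    rw [hγ0]
    exact hf 1 X.one_mem
  have h5 : (slope (fun t : ℚ_[l] => ev (γ t) f) 0 ∘
      fun k : ℕ => (l : ℚ_[l]) ^ k) = fun _ => 0 := by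
    funext k
    simp only [Function.comp_apply, slope, h2 k, h4, vsub_self, smul_zero]
  rw [h5] at h1
  exact tendsto_nhds_unique h1 tendsto_const_nhds

end fin

end LGP9

theorem st_LGP : ST_LGP := fun l _ n => LGP9.main l n

end MT
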