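import Pool.Agent.Helper21.MT9.Stmts
import Mathlib.Algebra.Lie.CartanCriterion
import Mathlib.Algebra.Lie.Semisimple.Lemmas
import Mathlib.Algebra.Lie.Matrix

/-!
# RED: irreducible Lie algebras of matrices are reductive
-/

set_option autoImplicit false

namespace MT

namespace RED9

attribute [local instance 100] LieRing.ofAssociativeRing

open LieAlgebra

variable {K : Type} [Field K] {n : ℕ}

/-- the trace zero matrices which are sums of an element of `a` and a scalar -/
def bL (a : Submodule K (Matrix (Fin n) (Fin n) K)) (ha : Brk a) :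
    LieSubalgebra K (Matrix (Fin n) (Fin n) K) where
  carrier := {X | X.trace = 0 ∧ ∃ A ∈ a, ∃ c : K, X = A - c • (1 : Matrix (Fin n) (Fin n) K)}
  add_mem' := by
    rintro X Y ⟨hX, A, hA, c, rfl⟩ ⟨hY, B, hB, d, rfl⟩
    refine ⟨by rw [Matrix.trace_add, hX, hY, add_zero], A + B, a.add_mem hA hB, c + d, ?_⟩
    rw [add_smul]; abel
  zero_mem' := ⟨by simp, 0, a.zero_mem, 0, by simp⟩
  smul_mem' := by
    rintro t X ⟨hX, A, hA, c, rfl⟩
    refine ⟨by rw [Matrix.trace_smul, hX, smul_zero], t • A, a.smul_mem t hA, t * c, ?_⟩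
    rw [smul_sub, smul_smul]
  lie_mem' := by
    rintro X Y ⟨hX, A, hA, c, rfl⟩ ⟨hY, B, hB, d, rfl⟩
    refine ⟨?_, A * B - B * A, ha A hA B hB, 0, ?_⟩
    · rw [Ring.lie_def, Matrix.trace_sub, Matrix.trace_mul_comm, sub_self]
    · rw [Ring.lie_def, zero_smul, sub_zero]
      simp only [sub_mul, mul_sub, Matrix.smul_mul, Matrix.mul_smul, one_mul, mul_one]
      rw [smul_comm d c]
      abel

theorem mem_bL {a : Submodule K (Matrix (Fin n) (Fin n) K)} {ha : Brk a}
    {X : Matrix (Fin n) (Fin n) K} :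
    X ∈ bL a ha ↔ X.trace = 0 ∧ ∃ A ∈ a, ∃ c : K, X = A - c • (1 : Matrix (Fin n) (Fin n) K) :=
  Iff.rfl

theorem lie_bL {a : Submodule K (Matrix (Fin n) (Fin n) K)} {ha : Brk a} (x y : bL a ha) :
    ((⁅x, y⁆ : bL a ha) : Matrix (Fin n) (Fin n) K) ∈
      Submodule.span K {X | ∃ B ∈ a, ∃ C ∈ a, X = B * C - C * B} := by
  obtain ⟨X, hX, A, hA, c, rfl⟩ := x
  obtain ⟨Y, hY, B, hB, d, rfl⟩ := y
  refine Submodule.subset_span ⟨A, hA, B, hB, ?_⟩
  rw [LieSubalgebra.coe_bracket, Ring.lie_def]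
  simp only [sub_mul, mul_sub, Matrix.smul_mul, Matrix.mul_smul, one_mul, mul_one]
  rw [smul_comm d c]
  abel

theorem irr_bL [CharZero K] (hn : 0 < n) {a : Submodule K (Matrix (Fin n) (Fin n) K)}
    (ha : Brk a) (hi : LIrr a) : LieModule.IsIrreducible K (bL a ha) (Fin n → K) := by
  haveI : Nonempty (Fin n) := ⟨⟨0, hn⟩⟩
  refine LieModule.IsIrreducible.mk fun N hN => ?_
  have h := hi N.toSubmodule ?_
  · rcases h with h | h
    · exact absurd ((LieSubmodule.toSubmodule_eq_bot N).mp h) hN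
    · exact (LieSubmodule.toSubmodule_eq_top N).mp h
  · intro A hA v hv
    have hn' : (n : K) ≠ 0 := Nat.cast_ne_zero.mpr hn.ne'
    have hx : A - (A.trace / n) • (1 : Matrix (Fin n) (Fin n) K) ∈ bL a ha := by
      refine ⟨?_, A, hA, _, rfl⟩
      rw [Matrix.trace_sub, Matrix.trace_smul, Matrix.trace_one, Fintype.card_fin, smul_eq_mul,
        div_mul_cancel₀ _ hn', sub_self]
    have h1 : (⁅(⟨_, hx⟩ : bL a ha), v⁆ : Fin n → K) ∈ N := LieSubmodule.lie_mem N hv
    have h2 : (⁅(⟨_, hx⟩ : bL a ha), v⁆ : Fin n → K) = A.mulVec v - (A.trace / n) • v := by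
      change (A - (A.trace / n) • (1 : Matrix (Fin n) (Fin n) K)).mulVec v = _
      rw [Matrix.sub_mulVec, Matrix.smul_mulVec, Matrix.one_mulVec]
    rw [h2] at h1
    have h3 := N.toSubmodule.add_mem h1 (N.toSubmodule.smul_mem (A.trace / n) hv)
    rwa [sub_add_cancel] at h3

/-- Semisimple Lie algebras are perfect. -/
theorem perf {L : Type} [LieRing L] [LieAlgebra K L] [Module.Finite K L] [IsKilling K L] :
    (⁅(⊤ : LieIdeal K L), (⊤ : LieIdeal K L)⁆ : LieIdeal K L) = ⊤ := by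
  set I : LieIdeal K L := ⁅(⊤ : LieIdeal K L), (⊤ : LieIdeal K L)⁆ with hI
  have hc := LieIdeal.isCompl_killingCompl I
  have hab : IsLieAbelian I.killingCompl := by
    rw [LieSubmodule.lie_abelian_iff_lie_self_eq_bot, eq_bot_iff]
    have h1 : ⁅I.killingCompl, I.killingCompl⁆ ≤ I :=
      LieSubmodule.mono_lie le_top le_top
    have h2 : ⁅I.killingCompl, I.killingCompl⁆ ≤ I.killingCompl :=
      LieSubmodule.lie_le_right _ _
    exact (le_inf h1 h2).trans (le_of_eq (disjoint_iff.mp hc.disjoint))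
  have hb := IsKilling.ideal_eq_bot_of_isLieAbelian (R := K) I.killingCompl
  have ht := hc.sup_eq_top
  rw [hb, sup_bot_eq] at ht
  exact ht

end RED9

open RED9

attribute [local instance 100] LieRing.ofAssociativeRing

theorem st_RED : ST_RED := by
  intro K _ _ _ n a ha hi A hA c hc
  rcases Nat.eq_zero_or_pos n with rfl | hn
  · have : A - c • (1 : Matrix (Fin 0) (Fin 0) K) = 0 := Subsingleton.elim _ _
    rw [this]
    exact Submodule.zero_mem _
  haveI : LieModule.IsIrreducible K (bL a ha) (Fin n → K) := irr_bL hn ha hi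
  haveI : LieAlgebra.HasTrivialRadical K (bL a ha) := by
    refine LieAlgebra.hasTrivialRadical_of_isIrreducible_of_isFaithful K (bL a ha) (Fin n → K) ?_
    intro x
    have h1 : LieModule.toEnd K (bL a ha) (Fin n → K) x =
        Matrix.toLin' (x : Matrix (Fin n) (Fin n) K) := by
      ext v i
      rfl
    rw [h1, Matrix.trace_toLin'_eq]
    exact x.2.1
  have hp : (⁅(⊤ : LieIdeal K (bL a ha)), (⊤ : LieIdeal K (bL a ha))⁆ :
      LieIdeal K (bL a ha)) = ⊤ := perf
  have hx : (⟨A - c • 1, hc, A, hA, c, rfl⟩ : bL a ha) ∈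
      (⁅(⊤ : LieIdeal K (bL a ha)), (⊤ : LieIdeal K (bL a ha))⁆ : LieIdeal K (bL a ha)) := by
    rw [hp]; exact LieSubmodule.mem_top _
  rw [← LieSubmodule.mem_toSubmodule, LieSubmodule.lieIdeal_oper_eq_linear_span] at hx
  have key : ∀ z : bL a ha, z ∈ Submodule.span K
      {⁅(y : bL a ha), (m : bL a ha)⁆ | (y : (⊤ : LieIdeal K (bL a ha)))
        (m : (⊤ : LieIdeal K (bL a ha)))} →
      (z : Matrix (Fin n) (Fin n) K) ∈
        Submodule.span K {X | ∃ B ∈ a, ∃ C ∈ a, X = B * C - C * B} := by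
    intro z hz
    induction hz using Submodule.span_induction with
    | mem x hx =>
      obtain ⟨y, m, rfl⟩ := hx
      exact lie_bL _ _
    | zero => exact Submodule.zero_mem _
    | add x y _ _ hx hy => exact Submodule.add_mem _ hx hy
    | smul t x _ hx => exact Submodule.smul_mem _ t hx
  exact key _ hx

end MT
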